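import Pool.Agent.R357.LS.Greedy
import Pool.Agent.R357.LS.Bessel

set_option autoImplicit false

open MeasureTheory Set Filter
open scoped Topology

namespace Pool.Agent.Results.MP_5c394f_nt.AllRatios

/-- `S_n(w) = ∑_{k < n} cos (2 π a_k w)` (the sequence is indexed from `0`) -/
noncomputable def S (a : ℕ → ℕ) (n : ℕ) (w : ℝ) : ℝ :=
  ∑ k ∈ Finset.range n, Real.cos (2 * Real.pi * a k * w)

/-- the `m`-th cumulant of a random variable `X` on `[0,1]` with Lebesgue measure: the `m`-th derivative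
of `log E[exp (t X)]` at `t = 0` -/
noncomputable def cumulant (m : ℕ) (X : ℝ → ℝ) : ℝ :=
  iteratedDeriv m (fun t => Real.log (∫ w in Icc (0:ℝ) 1, Real.exp (t * X w))) 0

/-- the Bessel function `I_0(t) = ∑_j (t/2)^{2j} / (j!)^2`, the moment generating function of the arcsine law -/
noncomputable def besselI0 (t : ℝ) : ℝ := ∑' j : ℕ, (t / 2) ^ (2 * j) / ((j.factorial : ℝ)) ^ 2

/-- the cumulant `κ̃_m` of one summand of the independent model -/
noncomputable def kappaTilde (m : ℕ) : ℝ := iteratedDeriv m (fun t => Real.log (besselI0 t)) 0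

/-- For every real `η > 1` there is a strictly increasing sequence of positive integers with
`a_{k+1} / a_k → η` such that for every `m` the difference `κ_m(S_n) - n κ̃_m` is eventually constant; in
particular `κ_m(S_n) / n → κ̃_m`. -/
theorem result (η : ℝ) (hη : 1 < η) : ∃ a : ℕ → ℕ, StrictMono a ∧ (∀ k, 0 < a k) ∧
    Tendsto (fun k => (a (k + 1) : ℝ) / a k) atTop (𝓝 η) ∧
    (∀ m : ℕ, ∃ c : ℝ, ∀ᶠ n : ℕ in atTop, cumulant m (S a n) = n * kappaTilde m + c) ∧
    ∀ m : ℕ, Tendsto (fun n : ℕ => cumulant m (S a n) / n) atTop (𝓝 (kappaTilde m)) := by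
  refine ⟨Pool.Agent.R357.LS.aa η, Pool.Agent.R357.LS.aa_strictMono hη, fun k => ?_,
    Pool.Agent.R357.LS.ratio hη, fun m => ?_, fun m => ?_⟩
  · have := Pool.Agent.R357.LS.aa_ge hη k
    omega
  · obtain ⟨c, N0, h⟩ := Pool.Agent.R357.LS.eventually_eq hη m
    refine ⟨c, ?_⟩
    filter_upwards [eventually_ge_atTop N0] with n hn
    have h1 := h n hn
    rw [Pool.Agent.R357.LS.kappa_cos] at h1
    exact h1
  · have h1 := Pool.Agent.R357.LS.limit hη m
    rw [Pool.Agent.R357.LS.kappa_cos] at h1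
    exact h1

end Pool.Agent.Results.MP_5c394f_nt.AllRatios
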